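import Pool.Agent.Helper26.GeprociCI

/-!
Interpolation along plane lines: forms of degree `b` prescribed on finitely many lines, with
agreeing values at the intersection points, are restrictions of one form of degree `b`.
-/

set_option autoImplicit false

open MvPolynomial
open Pool.Agent.Helper26.GeprociCI Pool.Agent.Helper26.LineArr

namespace Pool.Agent.K1H18.Interp

lemma dvd_homogeneousComponent {a : Fin 3 → ℂ} {p : S} (h : lin a ∣ p) (n : ℕ) :
    lin a ∣ homogeneousComponent n p := by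
  obtain ⟨q, rfl⟩ := h
  rcases Nat.eq_zero_or_pos n with rfl | hn
  · have h1 : homogeneousComponent 0 (lin a * q) = 0 := by
      rw [homogeneousComponent_zero]
      have : coeff 0 (lin a * q) = 0 := by
        have h2 : constantCoeff (lin a) = 0 := by simp [lin]
        have h3 : constantCoeff (lin a * q) = 0 := by rw [map_mul, h2, zero_mul]
        exact h3
      rw [this, C_0]
    rw [h1]
    exact dvd_zero _
  · obtain ⟨m, rfl⟩ : ∃ m, n = m + 1 := ⟨n - 1, by omega⟩
    rw [mul_comm, homogeneousComponent_mul_right (lin_isHomogeneous a)]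
    exact Dvd.intro_left _ rfl

lemma eval_of_dvd {a y : Fin 3 → ℂ} {p q : S} (h : lin a ∣ p - q) (hy : ∑ t, a t * y t = 0) :
    eval y p = eval y q := by
  obtain ⟨r, hr⟩ := h
  have h1 := congrArg (eval y) hr
  rw [map_sub, map_mul, eval_lin, hy, zero_mul] at h1
  exact sub_eq_zero.mp h1

theorem interp {m b : ℕ} (a : Fin m → Fin 3 → ℂ) (ha : ∀ i, a i ≠ 0)
    (hpar : ∀ i k, i ≠ k → ¬ lin (a i) ∣ lin (a k))
    (γ : Fin m → S) (hγ : ∀ i, (γ i).IsHomogeneous b)
    (nd : Fin m → Fin m → Fin 3 → ℂ)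
    (hn0 : ∀ i k, i ≠ k → nd i k ≠ 0)
    (hn1 : ∀ i k, i ≠ k → ∑ t, a i t * nd i k t = 0)
    (hn2 : ∀ i k, i ≠ k → ∑ t, a k t * nd i k t = 0)
    (hnd : ∀ i k l, i ≠ k → i ≠ l → k ≠ l → ∀ c : ℂ, nd i k ≠ c • nd i l)
    (hag : ∀ i k, i ≠ k → ∀ c : ℂ, eval (c • nd i k) (γ i) = eval (c • nd i k) (γ k))
    (s : Finset (Fin m)) :
    ∃ G : S, G.IsHomogeneous b ∧ ∀ i ∈ s, lin (a i) ∣ G - γ i := by
  classical
  have smul_sum : ∀ (x y : Fin 3 → ℂ) (c : ℂ), ∑ t, x t * y t = 0 → ∑ t, x t * (c • y) t = 0 := by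
    intro x y c h
    have : ∑ t, x t * (c • y) t = c * ∑ t, x t * y t := by
      rw [Finset.mul_sum]
      refine Finset.sum_congr rfl fun t _ => ?_
      rw [Pi.smul_apply, smul_eq_mul]
      ring
    rw [this, h, mul_zero]
  suffices h : ∃ G : S, ∀ i ∈ s, lin (a i) ∣ G - γ i by
    obtain ⟨G, hG⟩ := h
    refine ⟨homogeneousComponent b G, homogeneousComponent_isHomogeneous b G, fun i hi => ?_⟩
    have h1 := dvd_homogeneousComponent (hG i hi) b
    rw [map_sub, homogeneousComponent_of_mem (hγ i), if_pos rfl] at h1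
    exact h1
  induction s using Finset.induction_on with
  | empty => exact ⟨0, fun i hi => absurd hi (Finset.notMem_empty i)⟩
  | insert i s hi ih =>
    obtain ⟨G₀, hG₀⟩ := ih
    let e : Fin s.card ≃ s := s.equivFin.symm
    have hne : ∀ j, i ≠ (e j : Fin m) := fun j h => hi (h ▸ (e j).2)
    have hprodhom : (∏ k ∈ s, lin (a k)).IsHomogeneous s.card := by
      have := IsHomogeneous.prod s (fun k => lin (a k)) (fun _ => 1)
        (fun k _ => lin_isHomogeneous _)
      simpa using this
    obtain ⟨r, h', hr⟩ := line_step (a := a i) (ha i) (fun j => nd i (e j))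
      (∏ k ∈ s, lin (a k)) (fun j => hn0 i _ (hne j)) (fun j => hn1 i _ (hne j))
      (fun j j' hjj c => hnd i _ _ (hne j) (hne j')
        (fun h => hjj (e.injective (Subtype.ext h))) c)
      hprodhom
      (fun j c _ => by
        rw [map_prod]
        apply Finset.prod_eq_zero (e j).2
        rw [eval_lin]
        exact smul_sum _ _ _ (hn2 i _ (hne j)))
      (by
        intro hd
        rw [(lin_prime (ha i)).dvd_finsetProd_iff] at hd
        obtain ⟨k, hk, hd⟩ := hd
        exact hpar i k (fun h => hi (h ▸ hk)) hd)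
      (h := γ i - G₀)
      (fun j c _ => by
        rw [map_sub, sub_eq_zero, hag i _ (hne j)]
        exact (eval_of_dvd (hG₀ _ (e j).2) (smul_sum _ _ _ (hn2 i _ (hne j)))).symm)
    refine ⟨G₀ + r * ∏ k ∈ s, lin (a k), ?_⟩
    intro k hk
    rw [Finset.mem_insert] at hk
    rcases hk with rfl | hk
    · refine ⟨-h', ?_⟩
      linear_combination -hr
    · have h1 : lin (a k) ∣ r * ∏ k ∈ s, lin (a k) :=
        dvd_mul_of_dvd_right (Finset.dvd_prod_of_mem _ hk) _
      have h2 := dvd_add (hG₀ k hk) h1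
      convert h2 using 1
      ring

end Pool.Agent.K1H18.Interp
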