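import Pool.Agent.Results.MP_586029_ag.GeprociMatroid
import Pool.Agent.K1H18.Interp

/-!
Unions of several orbits on skew lines with two transversals: the projection from a general
point is a complete intersection.
-/

set_option autoImplicit false

open MvPolynomial
open Pool.Agent.Helper26.GeprociCI Pool.Agent.Helper26.LineArr
open Pool.Agent.Results.MP_586029_ag.GeprociMatroid

namespace Pool.Agent.K1H18.Gep

/-- The ideal is generated by a regular sequence consisting of a form of degree `a` and a form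
of degree `b`. -/
def IsCI (a b : ℕ) (I : Ideal R3) : Prop :=
  ∃ F G : R3, F.IsHomogeneous a ∧ G.IsHomogeneous b ∧
    RingTheory.Sequence.IsRegular R3 [F, G] ∧ I = Ideal.span {F, G}

section
variable {R : Type*} [CommRing R]

/-- The determinant of two vectors of the plane. -/
def wd (p q : Fin 2 → R) : R := p 0 * q 1 - p 1 * q 0

/-- The binary form with the roots `λ ^ e (λ ^ N - 1) (λ ^ N - c)`. -/
def ff (N e : ℕ) (c A B : R) : R := B ^ e * (B ^ N - A ^ N) * (B ^ N - c * A ^ N)

/-- The twisted binary form. -/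
def fe (N e : ℕ) (ε c A B : R) : R := B ^ e * (ε * B ^ N - A ^ N) * (ε * B ^ N - c * A ^ N)

lemma ff_smul (N e : ℕ) (c A B κ : R) :
    ff N e c (κ * A) (κ * B) = κ ^ (e + 2 * N) * ff N e c A B := by
  unfold ff
  rw [mul_pow, mul_pow, mul_pow, pow_add, pow_mul]
  ring

lemma ff_twist {N e : ℕ} {ε c A B σ τ : R} (h : σ ^ N = ε * τ ^ N) :
    ff N e c (τ * A) (σ * B) = σ ^ e * τ ^ (2 * N) * fe N e ε c A B := by
  unfold ff fe
  rw [mul_pow, mul_pow, mul_pow, h, two_mul, pow_add]
  ring

lemma fe_zero {N e : ℕ} (hN : 0 < N) (ε c : R) : fe N e ε c 0 0 = 0 := by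
  unfold fe
  rw [zero_pow hN.ne']
  ring

/-- the first two coordinates -/
def fs (x : Fin 4 → R) : Fin 2 → R := ![x 0, x 1]

/-- the last two coordinates -/
def sn (x : Fin 4 → R) : Fin 2 → R := ![x 2, x 3]

/-- the vector with given halves -/
def emb (p q : Fin 2 → R) : Fin 4 → R := ![p 0, p 1, q 0, q 1]

/-- The plane spanned by `P` and the line `{(A s, B t)}`. -/
def ell (s t : Fin 2 → R) (P x : Fin 4 → R) : R :=
  wd s (fs x) * wd t (sn P) - wd s (fs P) * wd t (sn x)

lemma ell_smul_add (s t : Fin 2 → R) (P x : Fin 4 → R) (κ μ : R) :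
    ell s t P (κ • x + μ • P) = κ * ell s t P x := by
  simp [ell, wd, fs, sn]
  ring

lemma ell_self (s t : Fin 2 → R) (P : Fin 4 → R) (A B : R) :
    ell s t P (emb (A • s) (B • t)) = 0 := by
  simp [ell, wd, fs, sn, emb]
  ring

lemma emb_add (p q p' q' : Fin 2 → R) : emb (p + p') (q + q') = emb p q + emb p' q' := by
  funext k
  fin_cases k <;> simp [emb]

lemma emb_smul (κ : R) (p q : Fin 2 → R) : emb (κ • p) (κ • q) = κ • emb p q := by
  funext k
  fin_cases k <;> simp [emb]

lemma emb_eq_zero {p q : Fin 2 → R} (h : emb p q = 0) : p = 0 ∧ q = 0 := by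
  have h0 := congrFun h 0
  have h1 := congrFun h 1
  have h2 := congrFun h 2
  have h3 := congrFun h 3
  simp [emb] at h0 h1 h2 h3
  constructor <;> funext k <;> fin_cases k <;> simp [h0, h1, h2, h3]

lemma fs_smul_eq (κ : R) (P : Fin 4 → R) {p q : Fin 2 → R} (h : κ • P = emb p q) :
    κ • fs P = p ∧ κ • sn P = q := by
  have h0 := congrFun h 0
  have h1 := congrFun h 1
  have h2 := congrFun h 2
  have h3 := congrFun h 3
  simp [emb] at h0 h1 h2 h3
  constructor <;> funext k <;> fin_cases k <;> simp [fs, sn, h0, h1, h2, h3]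

/-- The difference of the two representatives of a node is a multiple of `P`. -/
lemma node_identity (P : Fin 4 → R) (s t s' t' : Fin 2 → R) :
    emb ((wd t t' * wd (fs P) s') • s) ((wd s s' * wd (sn P) t') • t) -
      emb ((wd t t' * wd (fs P) s) • s') ((wd s s' * wd (sn P) t) • t') =
      (wd s s' * wd t t') • P := by
  funext k
  fin_cases k <;> simp [emb, wd, fs, sn] <;> ring

end

/-- Pairwise skew lines `{(A s i, B t i)}` with the multiplicative relation making the union of
orbits invariant. -/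
structure Arr {m : ℕ} (N : ℕ) (ε : ℂ) (s t : Fin m → Fin 2 → ℂ) : Prop where
  hs : ∀ i k, i ≠ k → wd (s i) (s k) ≠ 0
  ht : ∀ i k, i ≠ k → wd (t i) (t k) ≠ 0
  hN : ∀ i k, i ≠ k → wd (s i) (s k) ^ N = ε * wd (t i) (t k) ^ N

/-- The general position conditions on `P`. -/
structure GenP {m : ℕ} (N e : ℕ) (ε c : ℂ) (s t : Fin m → Fin 2 → ℂ) (P : V4) : Prop where
  h1 : ∀ i, fe N e ε c (wd (fs P) (s i)) (wd (sn P) (t i)) ≠ 0
  h2 : ∀ i k l, i ≠ k → i ≠ l → k ≠ l →
    (wd (t i) (t k) * wd (fs P) (s k)) * (wd (s i) (s l) * wd (sn P) (t l)) -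
      (wd (t i) (t l) * wd (fs P) (s l)) * (wd (s i) (s k) * wd (sn P) (t k)) ≠ 0

/-- The points. -/
def pt {m n : ℕ} (s t : Fin m → Fin 2 → ℂ) (Λ : Fin n → ℂ) (i : Fin m) (j : Fin n) : V4 :=
  emb (s i) (Λ j • t i)

/-- The set of points. -/
def ZZ {m n : ℕ} (s t : Fin m → Fin 2 → ℂ) (Λ : Fin n → ℂ) : Set P3 :=
  {z | ∃ i j, z.submodule = Submodule.span ℂ {pt s t Λ i j}}

lemma mem_ZZ {m n : ℕ} {s t : Fin m → Fin 2 → ℂ} {Λ : Fin n → ℂ} {x : V4} (hx : x ≠ 0)
    (h : Projectivization.mk ℂ x hx ∈ ZZ s t Λ) :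
    ∃ i j, ∃ c : ℂ, c ≠ 0 ∧ x = c • pt s t Λ i j := by
  obtain ⟨i, j, hij⟩ := h
  rw [Projectivization.submodule_mk] at hij
  have h1 : x ∈ Submodule.span ℂ {pt s t Λ i j} := by
    rw [← hij]
    exact Submodule.mem_span_singleton_self x
  rw [Submodule.mem_span_singleton] at h1
  obtain ⟨c, hc⟩ := h1
  refine ⟨i, j, c, ?_, hc.symm⟩
  rintro rfl
  rw [zero_smul] at hc
  exact hx hc.symm

lemma smul_pt_mem {m n : ℕ} {s t : Fin m → Fin 2 → ℂ} {Λ : Fin n → ℂ} {c : ℂ} (i : Fin m)
    (j : Fin n) (hc : c • pt s t Λ i j ≠ 0) :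
    Projectivization.mk ℂ (c • pt s t Λ i j) hc ∈ ZZ s t Λ := by
  refine ⟨i, j, ?_⟩
  rw [Projectivization.submodule_mk]
  have hc0 : c ≠ 0 := by
    rintro rfl
    exact hc (zero_smul _ _)
  exact Submodule.span_singleton_smul_eq (IsUnit.mk0 c hc0) _

lemma exists_dual {u v : V3} (h : ∀ A B : ℂ, A • u + B • v = 0 → A = 0 ∧ B = 0) :
    ∃ α β : V3, ∀ A B : ℂ, (∑ t, α t * (A • u + B • v) t = A) ∧
      (∑ t, β t * (A • u + B • v) t = B) := by
  let φ : (Fin 2 → ℂ) →ₗ[ℂ] V3 :=
    { toFun := fun x => x 0 • u + x 1 • v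
      map_add' := by
        intro x y
        simp only [Pi.add_apply, add_smul]
        abel
      map_smul' := by
        intro c x
        simp only [Pi.smul_apply, smul_eq_mul, RingHom.id_apply, smul_add, mul_smul] }
  have hφ : LinearMap.ker φ = ⊥ := by
    rw [LinearMap.ker_eq_bot']
    intro x hx
    obtain ⟨h0, h1⟩ := h (x 0) (x 1) hx
    funext k
    fin_cases k
    · exact h0
    · exact h1
  obtain ⟨ψ, hψ⟩ := LinearMap.exists_leftInverse_of_injective φ hφ
  have hs : ∀ (y : V3) (k : Fin 2), ∑ t, ψ (Pi.single t 1) k * y t = ψ y k := by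
    intro y k
    have h1 : ψ y = ∑ t, y t • ψ (Pi.single t 1) := by
      conv_lhs => rw [sum_single y]
      rw [map_sum]
      simp only [map_smul]
    rw [h1, Finset.sum_apply]
    refine Finset.sum_congr rfl fun t _ => ?_
    rw [Pi.smul_apply, smul_eq_mul, mul_comm]
  refine ⟨fun t => ψ (Pi.single t 1) 0, fun t => ψ (Pi.single t 1) 1, fun A B => ?_⟩
  have h2 : ψ (A • u + B • v) = ![A, B] := by
    have := LinearMap.congr_fun hψ ![A, B]
    simpa [φ] using this
  exact ⟨by rw [hs, h2]; rfl, by rw [hs, h2]; rfl⟩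

lemma ff_hom {N e : ℕ} (c : ℂ) {p q : R3} (hp : p.IsHomogeneous 1) (hq : q.IsHomogeneous 1) :
    (ff N e (C c) p q).IsHomogeneous (e + 2 * N) := by
  unfold ff
  have h1 := hp.pow N
  have h2 := hq.pow N
  have h3 := hq.pow e
  rw [one_mul] at h1 h2 h3
  have h4 := (h3.mul (h2.sub h1)).mul (h2.sub (h1.C_mul c))
  have : e + N + N = e + 2 * N := by omega
  rw [this] at h4
  exact h4

lemma eval_ff {N e : ℕ} (c : ℂ) (p q : R3) (y : V3) :
    eval y (ff N e (C c) p q) = ff N e c (eval y p) (eval y q) := by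
  simp [ff]

theorem ci_aux {m N e : ℕ} (hm : 2 ≤ m) (hN : 0 < N) {c ε : ℂ} {s t : Fin m → Fin 2 → ℂ}
    (hA : Arr N ε s t) {Λ : Fin (e + 2 * N) → ℂ} (hΛ : Function.Injective Λ)
    (hroot : ∀ j, ff N e c 1 (Λ j) = 0) {P : V4} (hP : GenP N e ε c s t P)
    {π : V4 →ₗ[ℂ] V3} (hπ : LinearMap.ker π = Submodule.span ℂ {P}) :
    IsCI m (e + 2 * N) (imageIdeal (ZZ s t Λ) π) := by
  -- surjectivity
  have hsurj : LinearMap.range π = ⊤ := by
    apply Submodule.eq_top_of_finrank_eq
    have h1 := LinearMap.finrank_range_add_finrank_ker π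
    have h2 : Module.finrank ℂ (LinearMap.ker π) ≤ 1 := by
      rw [hπ]
      exact (finrank_span_le_card ({P} : Set V4)).trans (by simp)
    have h3 : Module.finrank ℂ (LinearMap.range π) ≤ Module.finrank ℂ V3 :=
      Submodule.finrank_le _
    have h4 : Module.finrank ℂ V4 = 4 := by simp
    have h5 : Module.finrank ℂ V3 = 3 := by simp
    omega
  obtain ⟨sec, hσ⟩ := LinearMap.exists_rightInverse_of_surjective π hsurj
  have hπσ : ∀ y, π (sec y) = y := fun y => by
    have := LinearMap.congr_fun hσ y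
    simpa using this
  have hσπ : ∀ x, ∃ κ : ℂ, sec (π x) = x + κ • P := by
    intro x
    have h1 : sec (π x) - x ∈ LinearMap.ker π := by
      rw [LinearMap.mem_ker, map_sub, hπσ, sub_self]
    rw [hπ, Submodule.mem_span_singleton] at h1
    obtain ⟨κ, hκ⟩ := h1
    exact ⟨κ, by rw [hκ]; abel⟩
  have hne : ∀ i : Fin m, ∃ k, i ≠ k := by
    intro i
    by_cases h : i = ⟨0, by omega⟩
    · refine ⟨⟨1, by omega⟩, ?_⟩
      rw [h]
      intro h'
      have := congrArg Fin.val h'
      simp at this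
    · exact ⟨_, h⟩
  have hs0 : ∀ i, s i ≠ 0 := by
    intro i h
    obtain ⟨k, hk⟩ := hne i
    apply hA.hs i k hk
    rw [h]
    simp [wd]
  have ht0 : ∀ i, t i ≠ 0 := by
    intro i h
    obtain ⟨k, hk⟩ := hne i
    apply hA.ht i k hk
    rw [h]
    simp [wd]
  set a : Fin m → V3 := fun i r => ell (s i) (t i) P (sec (Pi.single r 1)) with ha
  have hlin : ∀ (y : V3) (i : Fin m), ∑ r, a i r * y r = ell (s i) (t i) P (sec y) := by
    intro y i
    have h1 : sec y = ∑ r, y r • sec (Pi.single r 1) := by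
      conv_lhs => rw [sum_single y]
      rw [map_sum]
      simp only [map_smul]
    rw [h1]
    simp only [ha, Fin.sum_univ_three, ell, wd, fs, sn, Pi.add_apply, Pi.smul_apply, smul_eq_mul,
      Matrix.cons_val_zero, Matrix.cons_val_one]
    ring
  have hellx : ∀ (x : V4) (i : Fin m), ∑ r, a i r * π x r = ell (s i) (t i) P x := by
    intro x i
    rw [hlin]
    obtain ⟨κ, hκ⟩ := hσπ x
    have := ell_smul_add (s i) (t i) P x 1 κ
    rw [one_smul, one_mul] at this
    rw [hκ, this]
  set u : Fin m → V3 := fun i => π (emb (s i) 0) with hu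
  set v : Fin m → V3 := fun i => π (emb 0 (t i)) with hv
  have huv : ∀ i (A B : ℂ), π (emb (A • s i) (B • t i)) = A • u i + B • v i := by
    intro i A B
    have h1 : emb (A • s i) (B • t i) = A • emb (s i) 0 + B • emb 0 (t i) := by
      rw [← emb_smul, ← emb_smul, ← emb_add, smul_zero, smul_zero, add_zero, zero_add]
    rw [h1, map_add, map_smul, map_smul]
  have hind : ∀ i (A B : ℂ), A • u i + B • v i = 0 → A = 0 ∧ B = 0 := by
    intro i A B h
    rw [← huv] at h
    have h1 : emb (A • s i) (B • t i) ∈ LinearMap.ker π := h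
    rw [hπ, Submodule.mem_span_singleton] at h1
    obtain ⟨κ, hκ⟩ := h1
    by_cases hκ0 : κ = 0
    · rw [hκ0, zero_smul] at hκ
      obtain ⟨h2, h3⟩ := emb_eq_zero hκ.symm
      exact ⟨(smul_eq_zero.mp h2).resolve_right (hs0 i),
        (smul_eq_zero.mp h3).resolve_right (ht0 i)⟩
    · exfalso
      obtain ⟨h2, h3⟩ := fs_smul_eq κ P hκ
      have w1 : wd (fs P) (s i) = 0 := by
        apply mul_left_cancel₀ hκ0
        have h4 := congrFun h2 0
        have h5 := congrFun h2 1
        simp only [Pi.smul_apply, smul_eq_mul] at h4 h5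
        unfold wd
        linear_combination (s i 1) * h4 - (s i 0) * h5
      have w2 : wd (sn P) (t i) = 0 := by
        apply mul_left_cancel₀ hκ0
        have h4 := congrFun h3 0
        have h5 := congrFun h3 1
        simp only [Pi.smul_apply, smul_eq_mul] at h4 h5
        unfold wd
        linear_combination (t i 1) * h4 - (t i 0) * h5
      apply hP.h1 i
      rw [w1, w2, fe_zero hN]
  choose α β hαβ using fun i => exists_dual (hind i)
  set Φ : Fin m → ℂ := fun i => fe N e ε c (wd (fs P) (s i)) (wd (sn P) (t i)) with hΦ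
  set γ : Fin m → R3 := fun i => C (Φ i) * ff N e (C c) (lin (α i)) (lin (β i)) with hγ
  have hγhom : ∀ i, (γ i).IsHomogeneous (e + 2 * N) := fun i =>
    (ff_hom c (lin_isHomogeneous _) (lin_isHomogeneous _)).C_mul _
  have hγeval : ∀ i (A B : ℂ), eval (A • u i + B • v i) (γ i) = Φ i * ff N e c A B := by
    intro i A B
    simp only [hγ]
    rw [map_mul, eval_C, eval_ff, eval_lin, eval_lin, (hαβ i A B).1, (hαβ i A B).2]
  set nd : Fin m → Fin m → V3 := fun i k =>
    (wd (t i) (t k) * wd (fs P) (s k)) • u i + (wd (s i) (s k) * wd (sn P) (t k)) • v i with hnd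
  have hnd2 : ∀ i k, nd i k =
      (wd (t i) (t k) * wd (fs P) (s i)) • u k + (wd (s i) (s k) * wd (sn P) (t i)) • v k := by
    intro i k
    simp only [hnd]
    rw [← huv, ← huv, ← sub_eq_zero, ← map_sub, node_identity, map_smul]
    have : π P = 0 := by
      rw [← LinearMap.mem_ker, hπ]
      exact Submodule.mem_span_singleton_self P
    rw [this, smul_zero]
  have key0 : ∀ k, ¬ (wd (fs P) (s k) = 0 ∧ wd (sn P) (t k) = 0) := by
    rintro k ⟨h1, h2⟩
    apply hP.h1 k
    rw [h1, h2, fe_zero hN]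
  have hoff : ∀ i k j, i ≠ k → ell (s k) (t k) P (pt s t Λ i j) ≠ 0 := by
    intro i k j hik h
    have h1 : wd (s i) (s k) * wd (sn P) (t k) = wd (t i) (t k) * wd (fs P) (s k) * Λ j := by
      simp [ell, pt, emb, wd, fs, sn] at h ⊢
      linear_combination h
    apply hP.h1 k
    have h2 := ff_twist (e := e) (c := c) (A := wd (fs P) (s k)) (B := wd (sn P) (t k))
      (hA.hN i k hik)
    rw [h1] at h2
    have h3 : ff N e c (wd (t i) (t k) * wd (fs P) (s k))
        (wd (t i) (t k) * wd (fs P) (s k) * Λ j) = 0 := by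
      have := ff_smul N e c 1 (Λ j) (wd (t i) (t k) * wd (fs P) (s k))
      rw [mul_one] at this
      rw [this, hroot, mul_zero]
    rw [h3] at h2
    have h4 : wd (s i) (s k) ^ e * wd (t i) (t k) ^ (2 * N) ≠ 0 :=
      mul_ne_zero (pow_ne_zero _ (hA.hs i k hik)) (pow_ne_zero _ (hA.ht i k hik))
    exact (mul_eq_zero.mp h2.symm).resolve_left h4
  have hn : 0 < e + 2 * N := by omega
  set w : Fin m → Fin (e + 2 * N) → V3 := fun i j => π (pt s t Λ i j) with hw
  have hwuv : ∀ i j (κ : ℂ), κ • w i j = κ • u i + (κ * Λ j) • v i := by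
    intro i j κ
    have : w i j = (1 : ℂ) • u i + (Λ j) • v i := by
      rw [← huv, one_smul]
      rfl
    rw [this, smul_add, smul_smul, smul_smul, mul_one]
  have haw : ∀ i j, ∑ r, a i r * w i j r = 0 := by
    intro i j
    simp only [hw]
    rw [hellx]
    have := ell_self (s i) (t i) P 1 (Λ j)
    rw [one_smul] at this
    exact this
  have hoffw : ∀ i k j, i ≠ k → ∑ r, a k r * w i j r ≠ 0 := by
    intro i k j hik
    simp only [hw]
    rw [hellx]
    exact hoff i k j hik
  have ha0 : ∀ i, a i ≠ 0 := by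
    intro i h0
    obtain ⟨k, hk⟩ := hne i
    apply hoffw k i ⟨0, hn⟩ hk.symm
    rw [h0]
    simp
  obtain ⟨G, hGhom, hG⟩ := Interp.interp a ha0
    (by
      intro i k hik hd
      obtain ⟨κ, hκ⟩ := lin_dvd_lin hd
      apply hoffw i k ⟨0, hn⟩ hik
      have h1 := haw i ⟨0, hn⟩
      rw [hκ]
      have : ∑ r, (κ • a i) r * w i ⟨0, hn⟩ r = κ * ∑ r, a i r * w i ⟨0, hn⟩ r := by
        rw [Finset.mul_sum]
        refine Finset.sum_congr rfl fun r _ => ?_
        rw [Pi.smul_apply, smul_eq_mul]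
        ring
      rw [this, h1, mul_zero])
    γ hγhom nd
    (by
      intro i k hik h
      obtain ⟨h1, h2⟩ := hind i _ _ h
      exact key0 k ⟨(mul_eq_zero.mp h1).resolve_left (hA.ht i k hik),
        (mul_eq_zero.mp h2).resolve_left (hA.hs i k hik)⟩)
    (by
      intro i k _
      simp only [hnd]
      rw [← huv, hellx, ell_self])
    (by
      intro i k _
      rw [hnd2, ← huv, hellx, ell_self])
    (by
      intro i k l hik hil hkl κ h
      simp only [hnd] at h
      have h1 : (wd (t i) (t k) * wd (fs P) (s k) - κ * (wd (t i) (t l) * wd (fs P) (s l))) • u i +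
          (wd (s i) (s k) * wd (sn P) (t k) - κ * (wd (s i) (s l) * wd (sn P) (t l))) • v i = 0 := by
        rw [sub_smul, sub_smul, mul_smul κ, mul_smul κ]
        rw [smul_add] at h
        rw [← sub_eq_zero] at h
        rw [← h]
        abel
      obtain ⟨h2, h3⟩ := hind i _ _ h1
      apply hP.h2 i k l hik hil hkl
      linear_combination (wd (s i) (s l) * wd (sn P) (t l)) * h2 -
        (wd (t i) (t l) * wd (fs P) (s l)) * h3)
    (by
      intro i k hik κ
      have e1 : κ • nd i k = (κ * (wd (t i) (t k) * wd (fs P) (s k))) • u i +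
          (κ * (wd (s i) (s k) * wd (sn P) (t k))) • v i := by
        simp only [hnd]
        rw [smul_add, smul_smul, smul_smul]
      have e2 : κ • nd i k = (κ * (wd (t i) (t k) * wd (fs P) (s i))) • u k +
          (κ * (wd (s i) (s k) * wd (sn P) (t i))) • v k := by
        rw [hnd2, smul_add, smul_smul, smul_smul]
      conv_lhs => rw [e1]
      conv_rhs => rw [e2]
      rw [hγeval, hγeval, ff_smul, ff_smul, ff_twist (hA.hN i k hik), ff_twist (hA.hN i k hik)]
      simp only [hΦ]
      ring)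
    Finset.univ
  have hGw : ∀ i j, ∀ κ : ℂ, κ ≠ 0 → eval (κ • w i j) G = 0 := by
    intro i j κ _
    have h1 := Interp.eval_of_dvd (y := κ • w i j) (hG i (Finset.mem_univ i)) (by
      have : ∑ r, a i r * (κ • w i j) r = κ * ∑ r, a i r * w i j r := by
        rw [Finset.mul_sum]
        refine Finset.sum_congr rfl fun r _ => ?_
        rw [Pi.smul_apply, smul_eq_mul]
        ring
      rw [this, haw, mul_zero])
    rw [h1, hwuv, hγeval]
    have := ff_smul N e c 1 (Λ j) κ
    rw [mul_one] at this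
    rw [this, hroot, mul_zero, mul_zero]
  have H : Data a w G := by
    refine ⟨ha0, ?_, haw, hoffw, ?_, hGhom, hGw, ?_⟩
    · intro i j h0
      obtain ⟨k, hk⟩ := hne i
      apply hoffw i k j hk
      rw [h0]
      simp
    · intro i j j' hjj κ hκ
      have h1 := hwuv i j 1
      rw [one_smul, hκ, hwuv] at h1
      have h2 : (κ - 1) • u i + (κ * Λ j' - 1 * Λ j) • v i = 0 := by
        rw [sub_smul, sub_smul]
        rw [← sub_eq_zero] at h1
        rw [← h1]
        abel
      obtain ⟨h3, h4⟩ := hind i _ _ h2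
      have h5 : κ = 1 := by linear_combination h3
      rw [h5] at h4
      exact hjj (hΛ (by linear_combination -h4))
    · intro i hdvd
      have h1 : lin (a i) ∣ γ i := by
        have := dvd_sub hdvd (hG i (Finset.mem_univ i))
        rwa [sub_sub_cancel] at this
      obtain ⟨q, hq⟩ := h1
      have h2 := congrArg (eval ((0 : ℂ) • u i + (1 : ℂ) • v i)) hq
      rw [hγeval, map_mul, eval_lin, ← huv, hellx, ell_self, zero_mul] at h2
      have h3 : ff N e c 0 1 = 1 := by
        unfold ff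
        rw [zero_pow hN.ne']
        ring
      rw [h3, mul_one] at h2
      exact hP.h1 i h2
  refine ⟨∏ i, lin (a i), G, ?_, hGhom, isRegular_of_data H ⟨0, by omega⟩ ⟨0, hn⟩, ?_⟩
  · have := IsHomogeneous.prod Finset.univ (fun i => lin (a i)) (fun _ => 1)
      (fun i _ => lin_isHomogeneous _)
    simpa using this
  · apply le_antisymm
    · intro F hF
      apply mem_span_of_data H Finset.univ F
      intro i _ j κ hκ
      have hpt0 : pt s t Λ i j ≠ 0 := by
        intro h
        exact hs0 i (emb_eq_zero h).1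
      have hc0 : κ • pt s t Λ i j ≠ 0 := smul_ne_zero hκ hpt0
      have := hF (κ • pt s t Λ i j) hc0 (smul_pt_mem i j hc0)
      rw [map_smul] at this
      exact this
    · intro F hF
      rw [Ideal.mem_span_pair] at hF
      obtain ⟨p, q, rfl⟩ := hF
      intro x hx hxZ
      obtain ⟨i, j, κ, hκ, rfl⟩ := mem_ZZ hx hxZ
      have h1 : eval (π (κ • pt s t Λ i j)) (∏ i, lin (a i)) = 0 := by
        rw [map_prod]
        apply Finset.prod_eq_zero (Finset.mem_univ i)
        rw [eval_lin, hellx]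
        have e1 := ell_self (s i) (t i) P κ (κ * Λ j)
        have e2 : κ • pt s t Λ i j = emb (κ • s i) ((κ * Λ j) • t i) := by
          rw [mul_smul, emb_smul]
          rfl
        rw [e2, e1]
      have h2 : eval (π (κ • pt s t Λ i j)) G = 0 := by
        rw [map_smul]
        exact hGw i j κ hκ
      rw [map_add, map_mul, map_mul, h1, h2]
      ring

end Pool.Agent.K1H18.Gep
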