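import Pool.Agent.K1H18.GepCI
import Pool.Agent.Y744.GP.Fam

/-!
The one-parameter families of `(a, b)`-geproci sets: general points, non-triviality, cardinality,
finiteness of the classes.
-/

set_option autoImplicit false

open MvPolynomial
open Pool.Agent.Results.MP_586029_ag.GeprociMatroid

namespace Pool.Agent.K1H18.Gep

/-! ### The polynomial describing general points -/

lemma fs_emb {R : Type*} [CommRing R] (p q : Fin 2 → R) : fs (emb p q) = p := by
  funext k
  fin_cases k <;> simp [fs, emb]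

lemma sn_emb {R : Type*} [CommRing R] (p q : Fin 2 → R) : sn (emb p q) = q := by
  funext k
  fin_cases k <;> simp [sn, emb]

/-- the first polynomial -/
noncomputable def p1 (N e : ℕ) (ε c : ℂ) (s t : Fin 2 → ℂ) : MvPolynomial (Fin 4) ℂ :=
  fe N e (C ε) (C c) (wd (fs X) (fun k => C (s k))) (wd (sn X) (fun k => C (t k)))

lemma eval_p1 (N e : ℕ) (ε c : ℂ) (s t : Fin 2 → ℂ) (P : V4) :
    eval P (p1 N e ε c s t) = fe N e ε c (wd (fs P) s) (wd (sn P) t) := by
  simp [p1, fe, wd, fs, sn]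

/-- the second polynomial -/
noncomputable def p2 (s t s' t' s'' t'' : Fin 2 → ℂ) : MvPolynomial (Fin 4) ℂ :=
  (C (wd t t') * wd (fs X) (fun k => C (s' k))) *
      (C (wd s s'') * wd (sn X) (fun k => C (t'' k))) -
    (C (wd t t'') * wd (fs X) (fun k => C (s'' k))) *
      (C (wd s s') * wd (sn X) (fun k => C (t' k)))

lemma eval_p2 (s t s' t' s'' t'' : Fin 2 → ℂ) (P : V4) :
    eval P (p2 s t s' t' s'' t'') =
      (wd t t' * wd (fs P) s') * (wd s s'' * wd (sn P) t'') -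
        (wd t t'' * wd (fs P) s'') * (wd s s' * wd (sn P) t') := by
  simp [p2, wd, fs, sn]

lemma exists_wd {t : Fin 2 → ℂ} (ht : t ≠ 0) : ∃ q : Fin 2 → ℂ, wd q t = 1 := by
  by_cases h : t 0 = 0
  · have h1 : t 1 ≠ 0 := by
      intro h1
      apply ht
      funext k
      fin_cases k
      · exact h
      · exact h1
    refine ⟨![(t 1)⁻¹, 0], ?_⟩
    simp [wd, h1]
  · refine ⟨![0, -(t 0)⁻¹], ?_⟩
    simp [wd, h]

lemma p1_ne_zero {N e : ℕ} (hN : 0 < N) {ε : ℂ} (hε : ε ≠ 0) (c : ℂ) {s t : Fin 2 → ℂ}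
    (ht : t ≠ 0) : p1 N e ε c s t ≠ 0 := by
  intro h
  obtain ⟨q, hq⟩ := exists_wd ht
  have h1 := congrArg (eval (emb s q)) h
  rw [eval_p1, map_zero, fs_emb, sn_emb, hq] at h1
  have h2 : wd s s = 0 := by
    unfold wd
    ring
  rw [h2] at h1
  unfold fe at h1
  rw [zero_pow hN.ne'] at h1
  apply hε
  have h3 : ε * ε = 0 := by
    simpa using h1
  exact mul_self_eq_zero.mp h3

lemma p2_ne_zero {s t s' t' s'' t'' : Fin 2 → ℂ} (h1 : wd t t' ≠ 0) (h2 : wd s s'' ≠ 0)
    (h3 : wd s'' s' ≠ 0) (h4 : wd t' t'' ≠ 0) : p2 s t s' t' s'' t'' ≠ 0 := by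
  intro h
  have h5 := congrArg (eval (emb s'' t')) h
  rw [eval_p2, map_zero, fs_emb, sn_emb] at h5
  have h6 : wd s'' s'' = 0 := by
    unfold wd
    ring
  rw [h6] at h5
  have h7 : (wd t t' * wd s'' s') * (wd s s'' * wd t' t'') = 0 := by
    linear_combination h5
  exact mul_ne_zero (mul_ne_zero h1 h3) (mul_ne_zero h2 h4) h7

/-- The polynomial whose nonvanishing at `P` guarantees that `P` is general enough. -/
noncomputable def DD {m : ℕ} (N e : ℕ) (ε c : ℂ) (s t : Fin m → Fin 2 → ℂ) :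
    MvPolynomial (Fin 4) ℂ :=
  (∏ i, p1 N e ε c (s i) (t i)) *
    ∏ i, ∏ k, ∏ l, if i ≠ k ∧ i ≠ l ∧ k ≠ l then p2 (s i) (t i) (s k) (t k) (s l) (t l) else 1

lemma DD_ne_zero {m N e : ℕ} (hm : 2 ≤ m) (hN : 0 < N) {ε : ℂ} (hε : ε ≠ 0) (c : ℂ)
    {s t : Fin m → Fin 2 → ℂ} (hA : Arr N ε s t) : DD N e ε c s t ≠ 0 := by
  unfold DD
  refine mul_ne_zero ?_ ?_
  · rw [Finset.prod_ne_zero_iff]
    intro i _
    apply p1_ne_zero hN hε
    intro h
    obtain ⟨k, hk⟩ : ∃ k, i ≠ k := by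
      by_cases h : i = ⟨0, by omega⟩
      · refine ⟨⟨1, by omega⟩, ?_⟩
        rw [h]
        intro h'
        have := congrArg Fin.val h'
        simp at this
      · exact ⟨_, h⟩
    apply hA.ht i k hk
    rw [h]
    simp [wd]
  · rw [Finset.prod_ne_zero_iff]
    intro i _
    rw [Finset.prod_ne_zero_iff]
    intro k _
    rw [Finset.prod_ne_zero_iff]
    intro l _
    split_ifs with h
    · exact p2_ne_zero (hA.ht i k h.1) (hA.hs i l h.2.1) (hA.hs l k h.2.2.symm)
        (hA.ht k l h.2.2)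
    · exact one_ne_zero

lemma DD_general {m N e : ℕ} {ε c : ℂ} {s t : Fin m → Fin 2 → ℂ} {P : V4}
    (h : eval P (DD N e ε c s t) ≠ 0) : GenP N e ε c s t P := by
  unfold DD at h
  rw [map_mul] at h
  have h1 := left_ne_zero_of_mul h
  have h2 := right_ne_zero_of_mul h
  constructor
  · intro i
    rw [map_prod, Finset.prod_ne_zero_iff] at h1
    have h3 := h1 i (Finset.mem_univ _)
    rwa [eval_p1] at h3
  · intro i k l hik hil hkl
    rw [map_prod, Finset.prod_ne_zero_iff] at h2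
    have h3 := h2 i (Finset.mem_univ _)
    rw [map_prod, Finset.prod_ne_zero_iff] at h3
    have h4 := h3 k (Finset.mem_univ _)
    rw [map_prod, Finset.prod_ne_zero_iff] at h4
    have h5 := h4 l (Finset.mem_univ _)
    rw [if_pos ⟨hik, hil, hkl⟩, eval_p2] at h5
    exact h5

/-! ### The enumeration of the roots -/

lemma exists_enum {N e : ℕ} (hN : 0 < N) (he : e ≤ 1) {c : ℂ} (hc0 : c ≠ 0) (hc1 : c ≠ 1) :
    ∃ Λ : Fin (e + 2 * N) → ℂ, Function.Injective Λ ∧
      ∀ x, ff N e c 1 x = 0 ↔ ∃ j, Λ j = x := by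
  set q : Polynomial ℂ := Polynomial.X ^ e *
    ((Polynomial.X ^ N - Polynomial.C 1) * (Polynomial.X ^ N - Polynomial.C c)) with hq
  have hm1 : (Polynomial.X ^ N - Polynomial.C (1 : ℂ)).Monic :=
    Polynomial.monic_X_pow_sub_C _ hN.ne'
  have hm2 : (Polynomial.X ^ N - Polynomial.C c).Monic := Polynomial.monic_X_pow_sub_C _ hN.ne'
  have hqm : q.Monic := (Polynomial.monic_X_pow e).mul (hm1.mul hm2)
  have hdeg : q.natDegree = e + 2 * N := by
    rw [hq, (Polynomial.monic_X_pow e).natDegree_mul (hm1.mul hm2), hm1.natDegree_mul hm2,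
      Polynomial.natDegree_X_pow, Polynomial.natDegree_X_pow_sub_C,
      Polynomial.natDegree_X_pow_sub_C]
    ring
  have hs1 : (Polynomial.X ^ N - Polynomial.C (1 : ℂ)).Separable :=
    Polynomial.separable_X_pow_sub_C _ (by exact_mod_cast hN.ne') one_ne_zero
  have hs2 : (Polynomial.X ^ N - Polynomial.C c).Separable :=
    Polynomial.separable_X_pow_sub_C _ (by exact_mod_cast hN.ne') hc0
  have hcop : IsCoprime (Polynomial.X ^ N - Polynomial.C (1 : ℂ))
      (Polynomial.X ^ N - Polynomial.C c) := by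
    refine ⟨Polynomial.C (c - 1)⁻¹, -Polynomial.C (c - 1)⁻¹, ?_⟩
    have h1 : c - 1 ≠ 0 := sub_ne_zero.mpr hc1
    have h2 : Polynomial.C (c - 1)⁻¹ * (Polynomial.C c - Polynomial.C 1) = (1 : Polynomial ℂ) := by
      rw [← Polynomial.C_sub, ← Polynomial.C_mul, inv_mul_cancel₀ h1, Polynomial.C_1]
    linear_combination h2
  have hXr : ∀ r : ℂ, r ≠ 0 → IsCoprime (Polynomial.X : Polynomial ℂ)
      (Polynomial.X ^ N - Polynomial.C r) := by
    intro r hr
    refine ⟨Polynomial.C r⁻¹ * Polynomial.X ^ (N - 1), -Polynomial.C r⁻¹, ?_⟩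
    have h1 : (Polynomial.X : Polynomial ℂ) ^ (N - 1) * Polynomial.X = Polynomial.X ^ N := by
      rw [← pow_succ]
      congr 1
      omega
    have h2 : Polynomial.C r⁻¹ * Polynomial.C r = (1 : Polynomial ℂ) := by
      rw [← Polynomial.C_mul, inv_mul_cancel₀ hr, Polynomial.C_1]
    linear_combination (Polynomial.C r⁻¹) * h1 + h2
  have hs12 : ((Polynomial.X ^ N - Polynomial.C (1 : ℂ)) *
      (Polynomial.X ^ N - Polynomial.C c)).Separable := hs1.mul hs2 hcop
  have hsep : q.Separable := by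
    have : e = 0 ∨ e = 1 := by omega
    rcases this with rfl | rfl
    · rw [hq, pow_zero, one_mul]
      exact hs12
    · rw [hq, pow_one]
      exact Polynomial.separable_X.mul hs12 ((hXr 1 one_ne_zero).mul_right (hXr c hc0))
  have hcard : q.roots.toFinset.card = e + 2 * N := by
    rw [Multiset.toFinset_card_of_nodup (Polynomial.nodup_roots hsep), ← hdeg]
    exact (IsAlgClosed.splits q).natDegree_eq_card_roots.symm
  have hmem : ∀ x, ff N e c 1 x = 0 ↔ x ∈ q.roots.toFinset := by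
    intro x
    rw [Multiset.mem_toFinset, Polynomial.mem_roots hqm.ne_zero, Polynomial.IsRoot.def, hq]
    simp [ff, mul_assoc]
  let E := (Finset.equivFinOfCardEq hcard).symm
  refine ⟨fun j => (E j : ℂ), fun j j' h => E.injective (Subtype.ext h), fun x => ?_⟩
  rw [hmem]
  constructor
  · intro hx
    exact ⟨E.symm ⟨x, hx⟩, by simp⟩
  · rintro ⟨j, rfl⟩
    exact (E j).2

/-! ### The lines -/

/-- The root of unity. -/
noncomputable def zt (N : ℕ) : ℂ := Complex.exp (2 * Real.pi * Complex.I / N)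

lemma zt_prim {N : ℕ} (hN : 0 < N) : IsPrimitiveRoot (zt N) N :=
  Complex.isPrimitiveRoot_exp N hN.ne'

/-- first half of the direction of the lines -/
noncomputable def S0 (N m : ℕ) (i : Fin m) : Fin 2 → ℂ :=
  ![1, if i.val = 0 then 0 else zt N ^ i.val]

/-- second half of the direction of the lines -/
noncomputable def T0 (N m : ℕ) (i : Fin m) : Fin 2 → ℂ :=
  if i.val = 0 then ![-1, 0] else ![1, (zt N ^ i.val)⁻¹]

lemma zt_pow_inj {N : ℕ} (hN : 0 < N) {i k : ℕ} (hi : 0 < i) (hi' : i ≤ N) (hk : 0 < k)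
    (hk' : k ≤ N) (h : zt N ^ i = zt N ^ k) : i = k := by
  have h1 : zt N ^ (i - 1) = zt N ^ (k - 1) := by
    have hz : zt N ≠ 0 := (zt_prim hN).ne_zero hN.ne'
    apply mul_left_cancel₀ hz
    rw [← pow_succ', ← pow_succ']
    have e1 : i - 1 + 1 = i := by omega
    have e2 : k - 1 + 1 = k := by omega
    rw [e1, e2, h]
  have := (zt_prim hN).pow_inj (by omega) (by omega) h1
  omega

lemma arr0 {N m : ℕ} (hN : 0 < N) (hm : m ≤ N + 1) : Arr N ((-1) ^ N) (S0 N m) (T0 N m) := by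
  have hz : zt N ≠ 0 := (zt_prim hN).ne_zero hN.ne'
  have hzN : ∀ i : ℕ, (zt N ^ i) ^ N = 1 := by
    intro i
    rw [← pow_mul, mul_comm, pow_mul, (zt_prim hN).pow_eq_one, one_pow]
  -- the ratio
  have key : ∀ i k : Fin m, i ≠ k → ∃ r : ℂ, r ^ N = (-1) ^ N ∧ wd (T0 N m i) (T0 N m k) ≠ 0 ∧
      wd (S0 N m i) (S0 N m k) = r * wd (T0 N m i) (T0 N m k) := by
    intro i k hik
    have hv : i.val ≠ k.val := fun h => hik (Fin.ext h)
    by_cases hi : i.val = 0
    · have hk : k.val ≠ 0 := fun h => hv (hi.trans h.symm)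
      have hk0 : zt N ^ k.val ≠ 0 := pow_ne_zero _ hz
      refine ⟨-(zt N ^ k.val * zt N ^ k.val), ?_, ?_, ?_⟩
      · rw [neg_pow, mul_pow, hzN]
        ring
      · simp [wd, T0, hi, hk, hz]
      · simp only [wd, T0, S0, hi, hk, if_true, if_false, Matrix.cons_val_zero,
          Matrix.cons_val_one]
        field_simp
        ring
    · by_cases hk : k.val = 0
      · have hi0 : zt N ^ i.val ≠ 0 := pow_ne_zero _ hz
        refine ⟨-(zt N ^ i.val * zt N ^ i.val), ?_, ?_, ?_⟩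
        · rw [neg_pow, mul_pow, hzN]
          ring
        · simp [wd, T0, hi, hk, hz]
        · simp only [wd, T0, S0, hi, hk, if_true, if_false, Matrix.cons_val_zero,
            Matrix.cons_val_one]
          field_simp
          ring
      · have hi0 : zt N ^ i.val ≠ 0 := pow_ne_zero _ hz
        have hk0 : zt N ^ k.val ≠ 0 := pow_ne_zero _ hz
        have hne : zt N ^ i.val ≠ zt N ^ k.val := fun h =>
          hv (zt_pow_inj hN (by omega) (by omega) (by omega) (by omega) h)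
        refine ⟨-(zt N ^ i.val * zt N ^ k.val), ?_, ?_, ?_⟩
        · rw [neg_pow, mul_pow, hzN, hzN]
          ring
        · simp only [wd, T0, hi, hk, if_false, Matrix.cons_val_zero, Matrix.cons_val_one]
          intro h
          apply hne
          have h1 : (zt N ^ k.val)⁻¹ = (zt N ^ i.val)⁻¹ := by linear_combination h
          exact (inv_injective h1).symm
        · simp only [wd, T0, S0, hi, hk, if_false, Matrix.cons_val_zero,
            Matrix.cons_val_one]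
          field_simp
          ring
  refine ⟨?_, ?_, ?_⟩
  · intro i k hik
    obtain ⟨r, h1, h2, h3⟩ := key i k hik
    rw [h3]
    refine mul_ne_zero ?_ h2
    rintro rfl
    rw [zero_pow hN.ne'] at h1
    exact pow_ne_zero N (by norm_num : (-1 : ℂ) ≠ 0) h1.symm
  · intro i k hik
    obtain ⟨r, h1, h2, h3⟩ := key i k hik
    exact h2
  · intro i k hik
    obtain ⟨r, h1, h2, h3⟩ := key i k hik
    rw [h3, mul_pow, h1]

/-! ### Non-triviality -/

lemma quad3 {A B D x y z : ℂ} (hxy : x ≠ y) (hxz : x ≠ z) (hyz : y ≠ z)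
    (h1 : A + x * B + x ^ 2 * D = 0) (h2 : A + y * B + y ^ 2 * D = 0)
    (h3 : A + z * B + z ^ 2 * D = 0) : A = 0 ∧ B = 0 ∧ D = 0 := by
  have hxy' := sub_ne_zero.mpr hxy
  have hxz' := sub_ne_zero.mpr hxz
  have hyz' := sub_ne_zero.mpr hyz
  have h4 : B + (x + y) * D = 0 := by
    apply mul_left_cancel₀ hxy'
    linear_combination h1 - h2
  have h5 : B + (x + z) * D = 0 := by
    apply mul_left_cancel₀ hxz'
    linear_combination h1 - h3
  have hD : D = 0 := by
    apply mul_left_cancel₀ hyz'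
    linear_combination h4 - h5
  have hB : B = 0 := by linear_combination h4 - (x + y) * hD
  exact ⟨by linear_combination h1 - x * hB - x ^ 2 * hD, hB, hD⟩

/-- The points `1`, `ζ`, `ζ ^ 2` are three distinct roots. -/
lemma three_roots {N : ℕ} (hN : 3 ≤ N) : (1 : ℂ) ≠ zt N ∧ (1 : ℂ) ≠ zt N ^ 2 ∧ zt N ≠ zt N ^ 2 := by
  have hp := zt_prim (N := N) (by omega)
  have h01 : zt N ^ 0 ≠ zt N ^ 1 := fun h => by
    have := hp.pow_inj (by omega) (by omega) h
    omega
  have h02 : zt N ^ 0 ≠ zt N ^ 2 := fun h => by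
    have := hp.pow_inj (by omega) (by omega) h
    omega
  have h12 : zt N ^ 1 ≠ zt N ^ 2 := fun h => by
    have := hp.pow_inj (by omega) (by omega) h
    omega
  rw [pow_zero] at h01 h02
  rw [pow_one] at h01 h12
  exact ⟨h01, h02, h12⟩

/-- The set of points in terms of the roots. -/
def Zc (N e m : ℕ) (c : ℂ) : Set P3 :=
  {z | ∃ (i : Fin m) (x : ℂ), x ^ e * (x ^ N - 1) * (x ^ N - c) = 0 ∧
    z.submodule = Submodule.span ℂ {emb (S0 N m i) (x • T0 N m i)}}

lemma ff_one {N e : ℕ} (c x : ℂ) : ff N e c 1 x = x ^ e * (x ^ N - 1) * (x ^ N - c) := by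
  unfold ff
  rw [one_pow, mul_one]

lemma Zc_eq {N e m : ℕ} {c : ℂ} {Λ : Fin (e + 2 * N) → ℂ}
    (h : ∀ x, ff N e c 1 x = 0 ↔ ∃ j, Λ j = x) : Zc N e m c = ZZ (S0 N m) (T0 N m) Λ := by
  ext z
  constructor
  · rintro ⟨i, x, hx, hz⟩
    rw [← ff_one, h] at hx
    obtain ⟨j, rfl⟩ := hx
    exact ⟨i, j, hz⟩
  · rintro ⟨i, j, hz⟩
    refine ⟨i, Λ j, ?_, hz⟩
    rw [← ff_one, h]
    exact ⟨j, rfl⟩

lemma S0_ne_zero (N m : ℕ) (i : Fin m) : S0 N m i ≠ 0 := by
  intro h
  have := congrFun h 0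
  simp [S0] at this

lemma T0_ne_zero (N m : ℕ) (i : Fin m) : T0 N m i ≠ 0 := by
  intro h
  have h1 := congrFun h 0
  unfold T0 at h1
  split_ifs at h1 <;> simp at h1

lemma emb_ne_zero (N m : ℕ) (i : Fin m) (q : Fin 2 → ℂ) : emb (S0 N m i) q ≠ 0 := fun h =>
  S0_ne_zero N m i (emb_eq_zero h).1

lemma mem_Zc {N e m : ℕ} {c : ℂ} (i : Fin m) {x : ℂ}
    (hx : x ^ e * (x ^ N - 1) * (x ^ N - c) = 0) :
    Projectivization.mk ℂ (emb (S0 N m i) (x • T0 N m i)) (emb_ne_zero N m i _) ∈ Zc N e m c :=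
  ⟨i, x, hx, Projectivization.submodule_mk _ _⟩

lemma root_of_pow {N e : ℕ} {c x : ℂ} (h : x ^ N = 1) :
    x ^ e * (x ^ N - 1) * (x ^ N - c) = 0 := by
  rw [h]
  ring

lemma root3 {N e : ℕ} (hN : 0 < N) (c : ℂ) (k : ℕ) :
    (zt N ^ k) ^ e * ((zt N ^ k) ^ N - 1) * ((zt N ^ k) ^ N - c) = 0 := by
  apply root_of_pow
  rw [← pow_mul, mul_comm, pow_mul, (zt_prim hN).pow_eq_one, one_pow]

lemma no_quad {N e m : ℕ} (hN : 3 ≤ N) (hm : 4 ≤ m) {c : ℂ} {q : Fin 10 → ℂ}
    (h : ∀ (x : V4) (hx : x ≠ 0), Projectivization.mk ℂ x hx ∈ Zc N e m c → quad q x = 0) :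
    q = 0 := by
  have hN0 : 0 < N := by omega
  obtain ⟨r1, r2, r3⟩ := three_roots hN
  have h1 : ∀ (i : Fin m) (k : ℕ), quad q (emb (S0 N m i) (zt N ^ k • T0 N m i)) = 0 :=
    fun i k => h _ (emb_ne_zero _ _ _ _) (mem_Zc i (root3 hN0 c k))
  have key : ∀ i : Fin m,
      (q 0 * (S0 N m i 0) ^ 2 + q 1 * (S0 N m i 1) ^ 2 + q 4 * (S0 N m i 0 * S0 N m i 1) = 0) ∧
      (q 5 * (S0 N m i 0 * T0 N m i 0) + q 6 * (S0 N m i 0 * T0 N m i 1) +
        q 7 * (S0 N m i 1 * T0 N m i 0) + q 8 * (S0 N m i 1 * T0 N m i 1) = 0) ∧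
      (q 2 * (T0 N m i 0) ^ 2 + q 3 * (T0 N m i 1) ^ 2 + q 9 * (T0 N m i 0 * T0 N m i 1) = 0) := by
    intro i
    refine quad3 r1 r2 r3 ?_ ?_ ?_
    · have := h1 i 0
      simp [quad, mon, Fin.sum_univ_succ, emb] at this
      linear_combination this
    · have := h1 i 1
      simp [quad, mon, Fin.sum_univ_succ, emb] at this
      linear_combination this
    · have := h1 i 2
      simp [quad, mon, Fin.sum_univ_succ, emb] at this
      linear_combination this
  obtain ⟨a0, b0, c0⟩ := key ⟨0, by omega⟩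
  simp [S0, T0] at a0 b0 c0
  have hz : zt N ≠ 0 := (zt_prim hN0).ne_zero hN0.ne'
  have kk : ∀ n : ℕ, 0 < n → n < m →
      (q 4 + q 1 * zt N ^ n = 0) ∧ (q 6 + q 8 * zt N ^ n + q 7 * (zt N ^ n) ^ 2 = 0) ∧
        (q 9 * zt N ^ n + q 3 = 0) := by
    intro n hn hnm
    obtain ⟨a1, b1, c1⟩ := key ⟨n, hnm⟩
    have hn0 : n ≠ 0 := hn.ne'
    have hzn : zt N ^ n ≠ 0 := pow_ne_zero _ hz
    have e0 : S0 N m ⟨n, hnm⟩ 0 = 1 := by simp [S0]
    have e1 : S0 N m ⟨n, hnm⟩ 1 = zt N ^ n := by simp [S0, hn0]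
    have e2 : T0 N m ⟨n, hnm⟩ 0 = 1 := by simp [T0, hn0]
    have e3 : T0 N m ⟨n, hnm⟩ 1 = (zt N ^ n)⁻¹ := by simp [T0, hn0]
    rw [e0, e1] at a1
    rw [e0, e1, e2, e3] at b1
    rw [e2, e3] at c1
    have hinv : zt N ^ n * (zt N ^ n)⁻¹ = 1 := mul_inv_cancel₀ hzn
    refine ⟨?_, ?_, ?_⟩
    · apply mul_left_cancel₀ hzn
      linear_combination a1 - a0
    · have h3 := congrArg (fun w => w * zt N ^ n) b1
      simp only [zero_mul] at h3
      linear_combination h3 - (q 6) * hinv - (q 8 * zt N ^ n) * hinv - (zt N ^ n) * b0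
    · have h3 := congrArg (fun w => w * (zt N ^ n) ^ 2) c1
      simp only [zero_mul] at h3
      linear_combination h3 - (q 9 * zt N ^ n) * hinv -
        (q 3 * (zt N ^ n * (zt N ^ n)⁻¹ + 1)) * hinv - (zt N ^ n) ^ 2 * c0
  obtain ⟨x1, y1, w1⟩ := kk 1 (by omega) (by omega)
  obtain ⟨x2, y2, w2⟩ := kk 2 (by omega) (by omega)
  obtain ⟨x3, y3, w3⟩ := kk 3 (by omega) (by omega)
  have d12 : zt N ^ 1 ≠ zt N ^ 2 := fun h => by
    have := zt_pow_inj hN0 (by omega) (by omega) (by omega) (by omega) h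
    omega
  have d13 : zt N ^ 1 ≠ zt N ^ 3 := fun h => by
    have := zt_pow_inj hN0 (by omega) (by omega) (by omega) (by omega) h
    omega
  have d23 : zt N ^ 2 ≠ zt N ^ 3 := fun h => by
    have := zt_pow_inj hN0 (by omega) (by omega) (by omega) (by omega) h
    omega
  have q1 : q 1 = 0 := by
    apply mul_left_cancel₀ (sub_ne_zero.mpr d12)
    linear_combination x1 - x2
  have q4 : q 4 = 0 := by linear_combination x1 - (zt N ^ 1) * q1
  have q9 : q 9 = 0 := by
    apply mul_left_cancel₀ (sub_ne_zero.mpr d12)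
    linear_combination w1 - w2
  have q3 : q 3 = 0 := by linear_combination w1 - (zt N ^ 1) * q9
  obtain ⟨q6, q8, q7⟩ := quad3 (A := q 6) (B := q 8) (D := q 7) d12 d13 d23
    (by linear_combination y1) (by linear_combination y2) (by linear_combination y3)
  funext k
  fin_cases k
  · exact a0
  · exact q1
  · exact c0
  · exact q3
  · exact q4
  · exact b0
  · exact q6
  · exact q7
  · exact q8
  · exact q9

lemma not_isGrid_Zc {N e m : ℕ} (hN : 3 ≤ N) (hm : 4 ≤ m) (c : ℂ) : ¬ IsGrid (Zc N e m c) := by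
  intro h
  obtain ⟨q, hq0, hq⟩ := grid_quad h
  exact hq0 (no_quad hN hm hq)

lemma not_isDegenerate_Zc {N e m : ℕ} (hN : 3 ≤ N) (hm : 4 ≤ m) (c : ℂ) :
    ¬ IsDegenerate (Zc N e m c) := by
  rintro ⟨φ, hφ, h⟩
  have hN0 : 0 < N := by omega
  have h1 : ∀ (x : V4) (hx : x ≠ 0), Projectivization.mk ℂ x hx ∈ Zc N e m c → φ x = 0 := by
    intro x hx hxZ
    obtain ⟨r, hr, hrep⟩ := rep_mk hx
    have := h _ hxZ
    rw [hrep, map_smul, smul_eq_mul] at this
    exact (mul_eq_zero.mp this).resolve_left hr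
  set p : Fin 4 → ℂ := fun k => φ (Pi.single k 1) with hp
  have hφx : ∀ x, φ x = p 0 * x 0 + p 1 * x 1 + p 2 * x 2 + p 3 * x 3 := by
    intro x
    have : x = x 0 • (Pi.single 0 1 : V4) + x 1 • (Pi.single 1 1 : V4) +
        x 2 • (Pi.single 2 1 : V4) + x 3 • (Pi.single 3 1 : V4) := by
      funext k
      fin_cases k <;> simp
    conv_lhs => rw [this]
    simp only [map_add, map_smul, smul_eq_mul, hp]
    ring
  -- the square of `φ`
  have h2 := no_quad (N := N) (e := e) (m := m) (c := c) hN hm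
    (q := ![p 0 ^ 2, p 1 ^ 2, p 2 ^ 2, p 3 ^ 2, 2 * p 0 * p 1, 2 * p 0 * p 2, 2 * p 0 * p 3,
      2 * p 1 * p 2, 2 * p 1 * p 3, 2 * p 2 * p 3]) (by
    intro x hx hxZ
    have h3 := h1 x hx hxZ
    rw [hφx] at h3
    have h4 : quad ![p 0 ^ 2, p 1 ^ 2, p 2 ^ 2, p 3 ^ 2, 2 * p 0 * p 1, 2 * p 0 * p 2,
        2 * p 0 * p 3, 2 * p 1 * p 2, 2 * p 1 * p 3, 2 * p 2 * p 3] x =
        (p 0 * x 0 + p 1 * x 1 + p 2 * x 2 + p 3 * x 3) ^ 2 := by
      simp [quad, mon, Fin.sum_univ_succ]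
      ring
    rw [h4, h3]
    ring)
  have g0 := congrFun h2 0
  have g1 := congrFun h2 1
  have g2 := congrFun h2 2
  have g3 := congrFun h2 3
  simp at g0 g1 g2 g3
  apply hφ
  ext x
  rw [LinearMap.zero_comp, LinearMap.zero_apply, LinearMap.comp_apply, hφx, g0, g1, g2, g3]
  simp

/-! ### Cardinality -/

lemma pt_inj {m n : ℕ} {N : ℕ} {ε : ℂ} {s t : Fin m → Fin 2 → ℂ} (hA : Arr N ε s t)
    (hs0 : ∀ i, s i ≠ 0) (ht0 : ∀ i, t i ≠ 0) {Λ : Fin n → ℂ} (hΛ : Function.Injective Λ)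
    {i k : Fin m} {j l : Fin n} {κ : ℂ} (h : pt s t Λ i j = κ • pt s t Λ k l) :
    i = k ∧ j = l := by
  have h1 : emb (s i) (Λ j • t i) = emb (κ • s k) (κ • (Λ l • t k)) := by
    rw [emb_smul]
    exact h
  have h2 : s i = κ • s k := by
    have := congrArg fs h1
    rwa [fs_emb, fs_emb] at this
  have h3 : Λ j • t i = κ • (Λ l • t k) := by
    have := congrArg sn h1
    rwa [sn_emb, sn_emb] at this
  have hik : i = k := by
    by_contra hne
    apply hA.hs i k hne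
    rw [h2]
    simp [wd]
    ring
  subst hik
  refine ⟨rfl, ?_⟩
  have h4 : (1 - κ) • s i = 0 := by
    rw [sub_smul, one_smul, ← h2, sub_self]
  have h5 : 1 - κ = 0 := (smul_eq_zero.mp h4).resolve_right (hs0 i)
  have h6 : κ = 1 := by linear_combination -h5
  rw [h6, one_smul] at h3
  have h7 : (Λ j - Λ l) • t i = 0 := by
    rw [sub_smul, h3, sub_self]
  have h8 := (smul_eq_zero.mp h7).resolve_right (ht0 i)
  exact hΛ (sub_eq_zero.mp h8)

lemma ncard_ZZ {m n : ℕ} {N : ℕ} {ε : ℂ} {s t : Fin m → Fin 2 → ℂ} (hA : Arr N ε s t)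
    (hs0 : ∀ i, s i ≠ 0) (ht0 : ∀ i, t i ≠ 0) {Λ : Fin n → ℂ} (hΛ : Function.Injective Λ) :
    (ZZ s t Λ).Finite ∧ (ZZ s t Λ).ncard = m * n := by
  have hne : ∀ i j, pt s t Λ i j ≠ 0 := fun i j h => hs0 i (emb_eq_zero h).1
  have h1 : ZZ s t Λ = Set.range fun ij : Fin m × Fin n =>
      Projectivization.mk ℂ (pt s t Λ ij.1 ij.2) (hne _ _) := by
    ext z
    constructor
    · rintro ⟨i, j, h⟩
      refine ⟨(i, j), ?_⟩
      apply Projectivization.submodule_injective
      rw [h, Projectivization.submodule_mk]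
    · rintro ⟨⟨i, j⟩, rfl⟩
      exact ⟨i, j, Projectivization.submodule_mk _ _⟩
  rw [h1]
  refine ⟨Set.finite_range _, ?_⟩
  have h2 : Function.Injective fun ij : Fin m × Fin n =>
      Projectivization.mk ℂ (pt s t Λ ij.1 ij.2) (hne _ _) := by
    rintro ⟨i, j⟩ ⟨k, l⟩ h
    simp only at h
    rw [Projectivization.mk_eq_mk_iff'] at h
    obtain ⟨κ, hκ⟩ := h
    obtain ⟨h3, h4⟩ := pt_inj hA hs0 ht0 hΛ hκ.symm
    rw [h3, h4]
  rw [← Set.image_univ, Set.ncard_image_of_injective _ h2, Set.ncard_univ]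
  simp

/-! ### The classes are finite -/

lemma fix3 {h : V4 ≃ₗ[ℂ] V4} {U V : V4} {x y z l1 l2 l3 l4 γ γ' : ℂ}
    (hli : ∀ α β : ℂ, α • U + β • V = 0 → α = 0 ∧ β = 0)
    (hxy : x ≠ y) (hxz : x ≠ z) (hyz : y ≠ z)
    (h1 : h (U + x • V) = l1 • (U + x • V)) (h2 : h (U + y • V) = l2 • (U + y • V))
    (h3 : h (U + z • V) = l3 • (U + z • V)) (h4 : h (U + γ • V) = l4 • (U + γ' • V)) :
    γ = γ' := by
  have hxy' := sub_ne_zero.mpr hxy
  have hxz' := sub_ne_zero.mpr hxz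
  have hyz' := sub_ne_zero.mpr hyz
  rw [map_add, map_smul] at h1 h2 h3 h4
  have e1 : ((y - x) * l1 + (z - x) * (l2 - l1) - (y - x) * l3) • U +
      ((y - x) * (l1 * x) + (z - x) * (l2 * y - l1 * x) - (y - x) * (l3 * z)) • V = 0 := by
    have : ((y - x) * l1 + (z - x) * (l2 - l1) - (y - x) * l3) • U +
      ((y - x) * (l1 * x) + (z - x) * (l2 * y - l1 * x) - (y - x) * (l3 * z)) • V =
      (y - x) • (l1 • (U + x • V)) + (z - x) • (l2 • (U + y • V) - l1 • (U + x • V)) -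
        (y - x) • (l3 • (U + z • V)) := by module
    rw [this, ← h1, ← h2, ← h3]
    module
  obtain ⟨a1, a2⟩ := hli _ _ e1
  have hl : l1 = l2 := by
    apply mul_left_cancel₀ (mul_ne_zero hyz' hxz')
    linear_combination a2 - z * a1
  have hV : h V = l1 • V := by
    have : (y - x) • h V = (y - x) • (l1 • V) := by
      have e2 : (y - x) • h V = (h U + y • h V) - (h U + x • h V) := by module
      rw [e2, h1, h2, ← hl]
      module
    exact smul_right_injective _ (sub_ne_zero.mpr hxy.symm) this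
  have hU : h U = l1 • U := by
    rw [hV] at h1
    have : h U = l1 • (U + x • V) - x • (l1 • V) := by
      rw [← h1]
      abel
    rw [this]
    module
  rw [hU, hV] at h4
  have e3 : (l1 - l4) • U + (γ * l1 - l4 * γ') • V = 0 := by
    have : (l1 - l4) • U + (γ * l1 - l4 * γ') • V =
      (l1 • U + γ • (l1 • V)) - l4 • (U + γ' • V) := by module
    rw [this, h4, sub_self]
  obtain ⟨b1, b2⟩ := hli _ _ e3
  have hl0 : l1 ≠ 0 := by
    rintro rfl
    rw [zero_smul] at hU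
    have he : U = 0 := h.map_eq_zero_iff.mp hU
    have := hli 1 0 (by rw [he, smul_zero, zero_smul, add_zero])
    exact one_ne_zero this.1
  apply mul_left_cancel₀ hl0
  linear_combination b2 - γ' * b1

lemma finite_class {N e m : ℕ} (hN : 3 ≤ N) (hm : 0 < m) {Z0 : Set P3} (hZ0 : Z0.Finite) :
    {c : ℂ | ProjectivelyEquivalent (Zc N e m c) Z0}.Finite := by
  by_contra hcon
  have hN0 : 0 < N := by omega
  obtain ⟨r1, r2, r3⟩ := three_roots hN
  set T : Set ℂ := {c : ℂ | ProjectivelyEquivalent (Zc N e m c) Z0} with hT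
  have hTinf : Infinite T := Set.infinite_coe_iff.mpr hcon
  have hequiv : ∀ c : T, ∃ g : V4 ≃ₗ[ℂ] V4,
      Projectivization.map g.toLinearMap g.injective '' (Zc N e m (c : ℂ)) = Z0 :=
    fun t => t.2
  choose g hg using hequiv
  have hroot : ∀ c : ℂ, ∃ γ : ℂ, γ ^ N = c := fun c => IsAlgClosed.exists_pow_nat_eq c hN0
  choose γ hγ using hroot
  let i0 : Fin m := ⟨0, hm⟩
  -- the four parameters
  let L : ℂ → Fin 4 → ℂ := fun c => ![1, zt N, zt N ^ 2, γ c]
  have hL : ∀ (c : ℂ) (j : Fin 4), (L c j) ^ e * ((L c j) ^ N - 1) * ((L c j) ^ N - c) = 0 := by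
    intro c j
    fin_cases j
    · have := root3 (e := e) hN0 c 0
      simpa [L] using this
    · have := root3 (e := e) hN0 c 1
      rw [pow_one] at this
      exact this
    · exact root3 hN0 c 2
    · change (γ c) ^ e * ((γ c) ^ N - 1) * ((γ c) ^ N - c) = 0
      rw [hγ]
      ring
  let vec : ℂ → V4 := fun x => emb (S0 N m i0) (x • T0 N m i0)
  have hvec : ∀ x, vec x = emb (S0 N m i0) 0 + x • emb 0 (T0 N m i0) := by
    intro x
    simp only [vec]
    rw [← emb_smul, ← emb_add, smul_zero, add_zero, zero_add]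
  have hidx : ∀ (c : T) (j : Fin 4), ∃ z : Z0,
      Projectivization.map (g c).toLinearMap (g c).injective
        (Projectivization.mk ℂ (vec (L c j)) (emb_ne_zero N m i0 _)) = z := by
    intro c j
    have h2 : Projectivization.map (g c).toLinearMap (g c).injective
        (Projectivization.mk ℂ (vec (L c j)) (emb_ne_zero N m i0 _)) ∈ Z0 := by
      rw [← hg c]
      exact ⟨_, mem_Zc i0 (hL c j), rfl⟩
    exact ⟨⟨_, h2⟩, rfl⟩
  choose s hs using hidx
  have : Finite Z0 := hZ0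
  obtain ⟨c, c', hcc, hst⟩ := Finite.exists_ne_map_eq_of_infinite s
  apply hcc
  apply Subtype.ext
  have hmap : ∀ j : Fin 4, ∃ l : ℂ, (g c).trans (g c').symm (vec (L c j)) = l • vec (L c' j) := by
    intro j
    have h1 := (hs c j).trans ((congrArg (fun f => ((f j : Z0) : P3)) hst).trans (hs c' j).symm)
    rw [Projectivization.map_mk, Projectivization.map_mk, Projectivization.mk_eq_mk_iff'] at h1
    obtain ⟨l, hl⟩ := h1
    refine ⟨l, ?_⟩
    rw [LinearEquiv.trans_apply, LinearEquiv.symm_apply_eq, map_smul]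
    exact hl.symm
  choose l hl using hmap
  have hγγ : γ (c : ℂ) = γ (c' : ℂ) := by
    have hli : ∀ α β : ℂ, α • emb (S0 N m i0) 0 + β • emb 0 (T0 N m i0) = 0 → α = 0 ∧ β = 0 := by
      intro α β h
      rw [← emb_smul, ← emb_smul, ← emb_add, smul_zero, smul_zero, add_zero, zero_add] at h
      obtain ⟨h1, h2⟩ := emb_eq_zero h
      exact ⟨(smul_eq_zero.mp h1).resolve_right (S0_ne_zero N m i0),
        (smul_eq_zero.mp h2).resolve_right (T0_ne_zero N m i0)⟩
    have e0 := hl 0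
    have e1 := hl 1
    have e2 := hl 2
    have e3 := hl 3
    simp only [hvec] at e0 e1 e2 e3
    exact fix3 hli r1 r2 r3 e0 e1 e2 e3
  rw [← hγ (c : ℂ), ← hγ (c' : ℂ), hγγ]

end Pool.Agent.K1H18.Gep
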